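import Pool.Agent.Lib.MP_53c40f_lc.Main

set_option autoImplicit false

namespace Pool.Agent.Results.MP_53c40f_lc.SacksDensityFails

open Pool.Agent.Lib.MP_53c40f_lc

/-- **The Sacks Density Theorem fails in some model of `PA⁻ + IΣ₁ + ¬BΣ₂`.**  There are a model `M`
of `PA⁻` with exponentiation and of `IΣ₁` in which `BΣ₂` fails, and c.e. sets `A`, `B` of `M` such
that `A` is strictly below `B` with respect to strong reducibility, `B` is complete, and no c.e. set
`C` lies strictly between `A` and `B`. -/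
theorem result : ∃ (M : Type) (_ : Arith M), PAMinusExp M ∧ ISigma1 M ∧ ¬ BSigma2 M ∧
    ∃ A B : Set M, CE A ∧ CE B ∧ Red A B ∧ ¬ Red B A ∧ (∀ C : Set M, CE C → Red C B) ∧
      ¬ ∃ C : Set M, CE C ∧ (Red A C ∧ ¬ Red C A) ∧ (Red C B ∧ ¬ Red B C) := by
  obtain ⟨M, i, h1, h2, h3, A, B, hA, hB, hc, hn, hd⟩ := main
  refine ⟨M, i, h1, h2, h3, A, B, hA, hB, hc A hA, hn, hc, ?_⟩
  rintro ⟨C, hC, ⟨h4, h5⟩, h6, h7⟩
  rcases hd C hC h4 with h | h
  · exact h5 h
  · exact h7 h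

end Pool.Agent.Results.MP_53c40f_lc.SacksDensityFails
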